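import Pool.Agent.H77.EA.Targets3
import Pool.Agent.H4.EA.QC

/-!
# MP_657073_al, module YB: characters invariant under a group of automorphisms whose kernel
contains a central `ℓ`-subgroup
-/

open scoped Classical ComplexConjugate

set_option linter.unusedSectionVars false

namespace Pool.Agent.H33.EA.YB

open AMc AMe Pool.Agent.H77.EA Pool.Agent.H4.EA.QC

section

variable {ℓ : ℕ} [Fact ℓ.Prime] {𝔪 : Ideal (integralClosure ℤ ℂ)}

/-- inflation -/
theorem inflH (QI : T_QI) (QN : T_QN) (QB : T_QB) (h𝔪 : 𝔪.IsMaximal)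
    (hℓ : (ℓ : integralClosure ℤ ℂ) ∈ 𝔪) {G H A : Type} [Group G] [Fintype G] [Group H]
    [Fintype H] [Group A] (p : G →* H) (hp : Function.Surjective p)
    (hc : p.ker ≤ Subgroup.center G)
    (hl : IsPGroup ℓ p.ker) {D : Subgroup G} (hD : p.ker ≤ D) {D' : Subgroup H}
    (hD' : D.map p = D') {χ : G → ℂ} {a : H → ℂ} (ha : a ∈ Irr H)
    (hχ : SameBlock 𝔪 χ (fun g => a (p g))) (ρ : A →* MulAut G) (τ : A →* MulAut H)
    (hs : ∀ x g, p (ρ x g) = τ x (p g)) (Z : Subgroup G) (hZ : ∀ z, z ∈ Z ↔ p z = 1) :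
    (FixCH ℓ 𝔪 χ D ρ Z 1).ncard = (FixCH ℓ 𝔪 a D' τ ⊥ 1).ncard := by
  subst hD'
  have hQI := QI G H p hp
  have hQB := (QB ℓ 𝔪 h𝔪 hℓ G H p hp hc hl).1
  have hidx := (QN G H p hp D hD).1
  have hinj : Function.Injective (fun (x : H → ℂ) => (fun g => x (p g) : G → ℂ)) := by
    intro x y hxy
    funext h
    obtain ⟨g, rfl⟩ := hp h
    exact congrFun hxy g
  rw [← Set.ncard_image_of_injective _ hinj]
  congr 1
  ext y
  constructor
  · rintro ⟨⟨hy1, hy2, d, hd1, hd2⟩, hy3, hy4⟩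
    obtain ⟨x, hx, rfl⟩ := hQI.2 y hy1 (fun z hz => by
      have := hy4 z ((hZ z).2 hz)
      rwa [Pi.one_apply, one_mul] at this)
    refine ⟨x, ⟨⟨hx, ?_, d, ?_, ?_⟩, ?_, ?_⟩, rfl⟩
    · exact (hQB a ha x hx).2 (same_trans (same_symm hχ) hy2)
    · have : x (p 1) = d := hd1
      rwa [map_one] at this
    · rw [← hidx]; exact hd2
    · intro s h
      obtain ⟨g, rfl⟩ := hp h
      rw [← hs]
      exact hy3 s g
    · intro z hz
      rw [Subgroup.mem_bot.1 hz, Pi.one_apply, one_mul]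
  · rintro ⟨x, ⟨⟨hx1, hx2, d, hd1, hd2⟩, hx3, hx4⟩, rfl⟩
    refine ⟨⟨(hQI.1 x).1 hx1, ?_, d, ?_, ?_⟩, ?_, ?_⟩
    · exact same_trans hχ ((hQB a ha x hx1).1 hx2)
    · show x (p 1) = d
      rw [map_one]
      exact hd1
    · rw [hidx]; exact hd2
    · intro s g
      show x (p (ρ s g)) = x (p g)
      rw [hs]
      exact hx3 s _
    · intro z hz
      show x (p z) = 1 * x (p 1)
      rw [(hZ z).1 hz, map_one, one_mul]

/-- the case when corresponding characters of the quotients are given -/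
theorem coreH (QI : T_QI) (QN : T_QN) (QB : T_QB) (h𝔪 : 𝔪.IsMaximal)
    (hℓ : (ℓ : integralClosure ℤ ℂ) ∈ 𝔪) {𝓓 : (D : Type) → [Group D] → Prop}
    (h𝓓 : ∀ (D E : Type) [Group D] [Group E] (f : D →* E), Function.Surjective f → 𝓓 D → 𝓓 E)
    {A : Type} [Group A] (CA : CountH ℓ 𝔪 𝓓 A) {G H : Type} [Group G] [Fintype G]
    [Group H] [Fintype H] (p : G →* H) (hp : Function.Surjective p)
    (hc : p.ker ≤ Subgroup.center G) (hl : IsPGroup ℓ p.ker) {D : Subgroup G}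
    (hD : p.ker ≤ D) (hDD : 𝓓 D) {χ : G → ℂ} {ψ : Subgroup.normalizer (D : Set G) → ℂ}
    {ρ : A →* MulAut G} (hρ : ∀ s, Fixes 𝔪 D χ (ρ s)) (τ : A →* MulAut H)
    (hs : ∀ s g, p (ρ s g) = τ s (p g))
    (p' : Subgroup.normalizer (D : Set G) →*
      Subgroup.normalizer ((D.map p : Subgroup H) : Set H))
    (hp' : Function.Surjective p') (hpp : ∀ x, (p' x : H) = p (x : G))
    (hk : ∀ x : Subgroup.normalizer (D : Set G), p' x = 1 ↔ p (x : G) = 1)
    (hDm : (D.subgroupOf (Subgroup.normalizer (D : Set G))).map p' =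
      (D.map p).subgroupOf (Subgroup.normalizer ((D.map p : Subgroup H) : Set H)))
    (hc' : p'.ker ≤ Subgroup.center (Subgroup.normalizer (D : Set G)))
    (hl' : IsPGroup ℓ p'.ker)
    {a : H → ℂ} {b : Subgroup.normalizer ((D.map p : Subgroup H) : Set H) → ℂ}
    (hB : Brauer ℓ 𝔪 (D.map p) a b) (h1 : SameBlock 𝔪 χ (fun g => a (p g)))
    (h2 : SameBlock 𝔪 ψ (fun x => b (p' x))) :
    (FixCH ℓ 𝔪 χ D ρ p.ker 1).ncard =
      (FixCH ℓ 𝔪 ψ (D.subgroupOf (Subgroup.normalizer (D : Set G)))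
        (rsH D ρ (fun s => (hρ s).1))
        (p.ker.subgroupOf (Subgroup.normalizer (D : Set G))) 1).ncard := by
  have hQI := QI G H p hp
  have hQB := (QB ℓ 𝔪 h𝔪 hℓ G H p hp hc hl).1
  have hmem : ∀ g, p g ∈ D.map p ↔ g ∈ D := by
    intro g
    constructor
    · rintro ⟨d, hd, hd'⟩
      have h3 : d⁻¹ * g ∈ p.ker := by
        rw [MonoidHom.mem_ker, map_mul, map_inv, hd', inv_mul_cancel]
      have h4 := D.mul_mem hd (hD h3)
      rwa [mul_inv_cancel_left] at h4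
    · intro h
      exact ⟨g, h, rfl⟩
  have hτ : ∀ s, Fixes 𝔪 (D.map p) a (τ s) := by
    intro s
    refine ⟨fun h => ?_, ?_⟩
    · obtain ⟨g, rfl⟩ := hp h
      rw [← hs, hmem, hmem]
      exact (hρ s).1 g
    · refine (hQB a hB.1 _ (irr_cmp (τ s) hB.1)).2 ?_
      have h3 : SameBlock 𝔪 (cmp (ρ s) χ) (cmp (ρ s) (fun g => a (p g))) := same_cmp (ρ s) h1
      have h4 : (fun g => cmp (τ s) a (p g)) = cmp (ρ s) (fun g => a (p g)) := by
        funext g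
        show a (τ s (p g)) = a (p (ρ s g))
        rw [hs]
      show SameBlock 𝔪 (fun g => a (p g)) (fun g => cmp (τ s) a (p g))
      rw [h4]
      exact same_trans (same_symm h1) (same_trans (hρ s).2 h3)
  have hD' : p'.ker ≤ D.subgroupOf (Subgroup.normalizer (D : Set G)) := by
    intro x hx
    rw [Subgroup.mem_subgroupOf]
    exact hD (MonoidHom.mem_ker.2 ((hk x).1 (MonoidHom.mem_ker.1 hx)))
  have hDD' : 𝓓 (D.map p : Subgroup H) :=
    h𝓓 D (D.map p : Subgroup H) (p.subgroupMap D) (p.subgroupMap_surjective D) hDD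
  rw [inflH QI QN QB h𝔪 hℓ p hp hc hl hD rfl hB.1 h1 ρ τ hs p.ker (fun z => MonoidHom.mem_ker),
    inflH QI QN QB h𝔪 hℓ p' hp' hc' hl' hD' hDm hB.2.1 h2 (rsH D ρ (fun s => (hρ s).1))
      (rsH (D.map p) τ (fun s => (hτ s).1)) (fun s x => by
        apply Subtype.ext
        rw [hpp]
        show p (rs D (ρ s) (hρ s).1 x : G) = (rs (D.map p) (τ s) (hτ s).1 (p' x) : H)
        rw [rs_coe, rs_coe, hpp, hs])
      (p.ker.subgroupOf (Subgroup.normalizer (D : Set G))) (fun z => by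
        rw [Subgroup.mem_subgroupOf, MonoidHom.mem_ker, hk])]
  exact CA H (D.map p) a b hB hDD' τ hτ

theorem mainH (BT : T_BT) (QI : T_QI) (QN : T_QN) (QB : T_QB) (QR : T_QR) (h𝔪 : 𝔪.IsMaximal)
    (hℓ : (ℓ : integralClosure ℤ ℂ) ∈ 𝔪) {𝓓 : (D : Type) → [Group D] → Prop}
    (h𝓓 : ∀ (D E : Type) [Group D] [Group E] (f : D →* E), Function.Surjective f → 𝓓 D → 𝓓 E)
    {A : Type} [Group A] (CA : CountH ℓ 𝔪 𝓓 A) {G H : Type} [Group G] [Fintype G]
    [Group H] [Fintype H] (p : G →* H) (hp : Function.Surjective p)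
    (hc : p.ker ≤ Subgroup.center G) (hl : IsPGroup ℓ p.ker) {D : Subgroup G} (hDD : 𝓓 D)
    {χ : G → ℂ} {ψ : Subgroup.normalizer (D : Set G) → ℂ} (hB : Brauer ℓ 𝔪 D χ ψ)
    {ρ : A →* MulAut G} (hρ : ∀ s, Fixes 𝔪 D χ (ρ s)) (τ : A →* MulAut H)
    (hs : ∀ s g, p (ρ s g) = τ s (p g)) :
    (FixCH ℓ 𝔪 χ D ρ p.ker 1).ncard =
      (FixCH ℓ 𝔪 ψ (D.subgroupOf (Subgroup.normalizer (D : Set G)))
        (rsH D ρ (fun s => (hρ s).1))
        (p.ker.subgroupOf (Subgroup.normalizer (D : Set G))) 1).ncard := by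
  have hD : p.ker ≤ D := le_defect hB.2.2.1 hc hl
  obtain ⟨-, p', hp', hpp, hk, hDm⟩ := QN G H p hp D hD
  have hc' : p'.ker ≤ Subgroup.center (Subgroup.normalizer (D : Set G)) := by
    intro x hx
    have h1 : (x : G) ∈ Subgroup.center G :=
      hc (MonoidHom.mem_ker.2 ((hk x).1 (MonoidHom.mem_ker.1 hx)))
    rw [Subgroup.mem_center_iff]
    intro g
    apply Subtype.ext
    exact Subgroup.mem_center_iff.1 h1 g
  have hl' : IsPGroup ℓ p'.ker := by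
    intro x
    obtain ⟨k, hk'⟩ := hl ⟨(x : Subgroup.normalizer (D : Set G)), MonoidHom.mem_ker.2
      ((hk x).1 (MonoidHom.mem_ker.1 x.2))⟩
    refine ⟨k, ?_⟩
    have h1 := congrArg (Subtype.val : p.ker → G) hk'
    apply Subtype.ext
    apply Subtype.ext
    exact h1
  have hBT := BT ℓ 𝔪 h𝔪 hℓ G D
  have hBT' := BT ℓ 𝔪 h𝔪 hℓ H (D.map p)
  have hQR := QR ℓ 𝔪 h𝔪 hℓ G H p hp hc D hD p' hp' hpp
  have hQI := QI G H p hp
  have hQI' := QI _ _ p' hp'
  have hQB := QB ℓ 𝔪 h𝔪 hℓ G H p hp hc hl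
  have hQB' := QB ℓ 𝔪 h𝔪 hℓ _ _ p' hp' hc' hl'
  by_cases hne : (FixCH ℓ 𝔪 χ D ρ p.ker 1).Nonempty
  · obtain ⟨a0, ⟨ha1, ha2, -⟩, -, ha4⟩ := hne
    obtain ⟨a, ha, rfl⟩ := hQI.2 a0 ha1 (fun z hz => by
      have := ha4 z (MonoidHom.mem_ker.2 hz)
      rwa [Pi.one_apply, one_mul] at this)
    have hd : IsDefect ℓ 𝔪 a (D.map p) := (hQB.2 a ha D (defect_same ha2 hB.2.2.1)).2
    obtain ⟨b, hb⟩ := hBT'.1 a ha hd
    have hcor := hQR a b hb.2.2.2.2
    have hB0 : Brauer ℓ 𝔪 D (fun g => a (p g)) ψ := (hBT.2.2.2 χ ψ hB _ ha1).2 ha2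
    have hb' : (fun x => b (p' x)) ∈ Irr (Subgroup.normalizer (D : Set G)) :=
      (hQI'.1 b).1 hb.2.1
    have h2 : SameBlock 𝔪 ψ (fun x => b (p' x)) := (hBT.2.2.1 _ ψ hB0 _ hb').1.2 hcor
    exact coreH QI QN QB h𝔪 hℓ h𝓓 CA p hp hc hl hD hDD hρ τ hs p' hp' hpp hk hDm hc' hl' hb ha2 h2
  · by_cases hne2 : (FixCH ℓ 𝔪 ψ (D.subgroupOf (Subgroup.normalizer (D : Set G)))
        (rsH D ρ (fun s => (hρ s).1))
        (p.ker.subgroupOf (Subgroup.normalizer (D : Set G))) 1).Nonempty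
    · obtain ⟨b0, ⟨hb1, hb2, -⟩, -, hb4⟩ := hne2
      obtain ⟨b, hb, rfl⟩ := hQI'.2 b0 hb1 (fun z hz => by
        have := hb4 z (by
          rw [Subgroup.mem_subgroupOf, MonoidHom.mem_ker]
          exact (hk z).1 hz)
        rwa [Pi.one_apply, one_mul] at this)
      have hd : IsDefect ℓ 𝔪 b
          ((D.map p).subgroupOf (Subgroup.normalizer ((D.map p : Subgroup H) : Set H))) := by
        rw [← hDm]
        exact (hQB'.2 b hb _ (defect_same hb2 hB.2.2.2.1)).2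
      obtain ⟨a, ha⟩ := hBT'.2.1 b hb hd
      have hcor := hQR a b ha.2.2.2.2
      have hB0 : Brauer ℓ 𝔪 D χ (fun x => b (p' x)) := (hBT.2.2.1 χ ψ hB _ hb1).2 hb2
      have h1 : SameBlock 𝔪 χ (fun g => a (p g)) :=
        (hBT.2.2.2 χ _ hB0 _ ((hQI.1 a).1 ha.1)).1.2 hcor
      exact coreH QI QN QB h𝔪 hℓ h𝓓 CA p hp hc hl hD hDD hρ τ hs p' hp' hpp hk hDm hc' hl'
        ha h1 hb2
    · rw [Set.not_nonempty_iff_eq_empty.1 hne, Set.not_nonempty_iff_eq_empty.1 hne2,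
        Set.ncard_empty, Set.ncard_empty]

end

/-- the induced action on the quotient -/
def quoH {G H : Type} [Group G] [Group H] (ρ : H →* MulAut G) (Z : Subgroup G) [Z.Normal]
    (hmap : ∀ h, Z.map (ρ h).toMonoidHom = Z) : H →* MulAut (G ⧸ Z) where
  toFun h := QuotientGroup.congr Z Z (ρ h) (hmap h)
  map_one' := by
    apply MulEquiv.ext
    intro x
    obtain ⟨g, rfl⟩ := QuotientGroup.mk'_surjective Z x
    show QuotientGroup.mk' Z (ρ 1 g) = QuotientGroup.mk' Z g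
    rw [map_one]
    rfl
  map_mul' h h' := by
    apply MulEquiv.ext
    intro x
    obtain ⟨g, rfl⟩ := QuotientGroup.mk'_surjective Z x
    show QuotientGroup.mk' Z (ρ (h * h') g) = QuotientGroup.mk' Z (ρ h (ρ h' g))
    rw [map_mul]
    rfl

theorem yb (hBT : T_BT) (hQI : T_QI) (hQN : T_QN) (hQB : T_QB) (hQR : T_QR) : T_YB := by
  intro ℓ _ 𝔪 h𝔪 hℓ 𝓓 h𝓓 H _ _ CA G _ _ D χ ψ hB hDD ρ hρ Z hc hl hZ
  have hn : Z.Normal := ⟨fun z hz g => by
    have h1 := Subgroup.mem_center_iff.1 (hc hz) g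
    rw [h1, mul_inv_cancel_right]
    exact hz⟩
  let _ : Fintype (G ⧸ Z) := Fintype.ofFinite _
  have hmap : ∀ h, Z.map (ρ h).toMonoidHom = Z := by
    intro h
    ext g
    constructor
    · rintro ⟨z, hz, rfl⟩
      exact (hZ h z).2 hz
    · intro hg
      refine ⟨(ρ h)⁻¹ g, ?_, MulAut.apply_inv_self G (ρ h) g⟩
      have := hZ h ((ρ h)⁻¹ g)
      rw [MulAut.apply_inv_self] at this
      exact this.1 hg
  have hk : (QuotientGroup.mk' Z).ker = Z := QuotientGroup.ker_mk' Z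
  have key := mainH hBT hQI hQN hQB hQR h𝔪 hℓ h𝓓 CA (QuotientGroup.mk' Z)
    (QuotientGroup.mk'_surjective Z) (by rw [hk]; exact hc) (by rw [hk]; exact hl) hDD hB hρ
    (quoH ρ Z hmap) (fun s g => rfl)
  rw [hk] at key
  exact key

end Pool.Agent.H33.EA.YB
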