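import Pool.Agent.H77.EA.Targets2
import Pool.Agent.H3.AM.Basic

/-!
# Equivariant Alperin–McKay (MP_657073_al): module RS

The `ℓ ^ k`-th power of an element of the centre is supported on `ℓ`-regular elements.  For an
`ℓ`-element `u` and an element `x` of the group algebra which commutes with `u`, the coefficient of
`x ^ P` at `u` is a sum over the words of length `P` with product `u`; a twisted rotation of the words
generates an `ℓ`-group which acts without fixed points.
-/

open scoped Classical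

set_option autoImplicit false

namespace Pool.Agent.H33.EA.RS

open AMc AMe

/-! ### Expansion of a power -/

section expand

variable {Γ : Type} [Group Γ] [Fintype Γ] {F : Type} [Field F]

/-- weight of a word -/
noncomputable def wt (b : Γ → F) (y : Γ) {n : ℕ} (s : Fin n → Γ) : F :=
  if (List.ofFn s).prod = y then ∏ i, b (s i) else 0

theorem coeff_pow (x : MonoidAlgebra F Γ) (n : ℕ) : ∀ y : Γ,
    (x ^ n).coeff y = ∑ s : Fin n → Γ, wt (fun g => x.coeff g) y s := by
  induction n with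
  | zero =>
    intro y
    rw [pow_zero, MonoidAlgebra.one_def, MonoidAlgebra.coeff_single, Finsupp.single_apply]
    simp [wt]
  | succ n ih =>
    intro y
    rw [pow_succ', coeff_mul_group]
    rw [← (Fin.consEquiv (fun _ : Fin (n + 1) => Γ)).sum_comp, Fintype.sum_prod_type]
    refine Finset.sum_congr rfl fun a _ => ?_
    rw [ih, Finset.mul_sum]
    refine Finset.sum_congr rfl fun s _ => ?_
    show x.coeff a * wt (fun g => x.coeff g) (a⁻¹ * y) s =
      wt (fun g => x.coeff g) y (Fin.cons a s : Fin (n + 1) → Γ)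
    unfold wt
    rw [List.ofFn_cons, List.prod_cons, Fin.prod_univ_succ]
    simp only [Fin.cons_zero, Fin.cons_succ]
    by_cases h : (List.ofFn s).prod = a⁻¹ * y
    · rw [if_pos h, if_pos (by rw [h, mul_inv_cancel_left])]
    · rw [if_neg h, if_neg (fun h' => h (by rw [← h', inv_mul_cancel_left])), mul_zero]

end expand

/-! ### The twisted rotation -/

section rot

variable {Γ : Type} [Group Γ] (u : Γ) {P : ℕ} (hP : 0 < P)

/-- the twisted periodic extension of a word -/
def ext (s : Fin P → Γ) (m : ℕ) : Γ :=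
  (u ^ (m / P))⁻¹ * s ⟨m % P, Nat.mod_lt _ hP⟩ * u ^ (m / P)

theorem ext_lt (s : Fin P → Γ) (i : Fin P) : ext u hP s i = s i := by
  unfold ext
  have h1 : (⟨(i : ℕ) % P, Nat.mod_lt _ hP⟩ : Fin P) = i := Fin.ext (Nat.mod_eq_of_lt i.2)
  rw [h1, Nat.div_eq_of_lt i.2, pow_zero, inv_one, one_mul, mul_one]

theorem ext_add_mul (s : Fin P → Γ) (x q : ℕ) :
    ext u hP s (x + q * P) = (u ^ q)⁻¹ * ext u hP s x * u ^ q := by
  unfold ext
  have h1 : (x + q * P) / P = x / P + q := Nat.add_mul_div_right x q hP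
  have h2 : (⟨(x + q * P) % P, Nat.mod_lt _ hP⟩ : Fin P) = ⟨x % P, Nat.mod_lt _ hP⟩ :=
    Fin.ext (Nat.add_mul_mod_self_right x q P)
  rw [h1, h2, pow_add]
  group

/-- the shifted word -/
def sh (j : ℕ) (s : Fin P → Γ) : Fin P → Γ := fun i => ext u hP s (i + j)

theorem ext_sh (j : ℕ) (s : Fin P → Γ) (m : ℕ) : ext u hP (sh u hP j s) m = ext u hP s (m + j) := by
  have h1 : ext u hP (sh u hP j s) m =
      (u ^ (m / P))⁻¹ * ext u hP s (m % P + j) * u ^ (m / P) := rfl
  rw [h1, ← ext_add_mul]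
  congr 1
  have := Nat.mod_add_div m P
  have h2 : m / P * P = P * (m / P) := mul_comm _ _
  omega

theorem sh_sh (j k : ℕ) (s : Fin P → Γ) : sh u hP j (sh u hP k s) = sh u hP (j + k) s := by
  funext i
  show ext u hP (sh u hP k s) (i + j) = ext u hP s (i + (j + k))
  rw [ext_sh, add_assoc]

theorem sh_zero (s : Fin P → Γ) : sh u hP 0 s = s := by
  funext i
  exact ext_lt u hP s i

variable (hu : u ^ P = 1)

include hu in
theorem sh_period (q : ℕ) (s : Fin P → Γ) : sh u hP (q * (P * P)) s = s := by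
  funext i
  show ext u hP s (i + q * (P * P)) = s i
  rw [← mul_assoc, ext_add_mul, ext_lt]
  have h1 : u ^ (q * P) = 1 := by rw [mul_comm, pow_mul, hu, one_pow]
  rw [h1, inv_one, one_mul, mul_one]

include hu in
theorem sh_mod (j : ℕ) (s : Fin P → Γ) : sh u hP (j % (P * P)) s = sh u hP j s := by
  have h1 : sh u hP j s = sh u hP (j % (P * P) + (j / (P * P)) * (P * P)) s := by
    congr 1
    have := Nat.mod_add_div j (P * P)
    have h2 : j / (P * P) * (P * P) = P * P * (j / (P * P)) := mul_comm _ _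
    omega
  rw [h1, ← sh_sh, sh_period u hP hu]

end rot

section weight

variable {Γ : Type} [Group Γ] {F : Type} [Field F]

theorem ofFn_range {α : Type} (f : ℕ → α) (n : ℕ) :
    List.ofFn (fun i : Fin n => f i) = (List.range n).map f := by
  apply List.ext_getElem
  · simp
  · intro i h1 h2
    simp

theorem wt_eq (b : Γ → F) (y u : Γ) {P : ℕ} (hP : 0 < P) (s : Fin P → Γ) :
    wt b y s = if ((List.range P).map (ext u hP s)).prod = y then
      ∏ i ∈ Finset.range P, b (ext u hP s i) else 0 := by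
  unfold wt
  have h1 : List.ofFn s = (List.range P).map (ext u hP s) := by
    rw [← ofFn_range]
    congr 1
    funext i
    exact (ext_lt u hP s i).symm
  rw [h1, Finset.prod_range]
  simp only [ext_lt]

theorem wt_sh_one (b : Γ → F) {u : Γ} (hb : ∀ g, b (u⁻¹ * g * u) = b g) {P : ℕ} (hP : 0 < P)
    (s : Fin P → Γ) : wt b u (sh u hP 1 s) = wt b u s := by
  rw [wt_eq b u u hP, wt_eq b u u hP]
  have he : ext u hP (sh u hP 1 s) = fun m => ext u hP s (m + 1) := by
    funext m
    exact ext_sh u hP 1 s m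
  rw [he]
  set a := ext u hP s with ha
  obtain ⟨n, rfl⟩ : ∃ n, P = n + 1 := ⟨P - 1, by omega⟩
  have hlast : a (n + 1) = u⁻¹ * a 0 * u := by
    have := ext_add_mul u hP s 0 1
    rw [zero_add, one_mul, pow_one] at this
    exact this
  have e1 : ((List.range (n + 1)).map a).prod =
      a 0 * ((List.range n).map (fun i => a (i + 1))).prod := List.prod_range_succ' a n
  have e2 : ((List.range (n + 1)).map (fun m => a (m + 1))).prod =
      ((List.range n).map (fun i => a (i + 1))).prod * a (n + 1) :=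
    List.prod_range_succ (fun m => a (m + 1)) n
  have e3 : ∏ i ∈ Finset.range (n + 1), b (a i) =
      (∏ i ∈ Finset.range n, b (a (i + 1))) * b (a 0) := Finset.prod_range_succ' _ n
  have e4 : ∏ i ∈ Finset.range (n + 1), b (a (i + 1)) =
      (∏ i ∈ Finset.range n, b (a (i + 1))) * b (a (n + 1)) := Finset.prod_range_succ _ n
  rw [e1, e2, e3, e4, hlast, hb]
  congr 1
  set w := ((List.range n).map (fun i => a (i + 1))).prod with hw
  rw [eq_iff_iff]
  constructor
  · intro h
    have h1 : w = u * (u⁻¹ * a 0 * u)⁻¹ := eq_mul_inv_of_mul_eq h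
    rw [h1]
    group
  · intro h
    have h1 : w = (a 0)⁻¹ * u := eq_inv_mul_of_mul_eq h
    rw [h1]
    group

theorem wt_sh (b : Γ → F) {u : Γ} (hb : ∀ g, b (u⁻¹ * g * u) = b g) {P : ℕ} (hP : 0 < P)
    (j : ℕ) : ∀ s : Fin P → Γ, wt b u (sh u hP j s) = wt b u s := by
  induction j with
  | zero => intro s; rw [sh_zero]
  | succ j ih =>
    intro s
    rw [← sh_sh u hP j 1, ih, wt_sh_one b hb hP]

/-- a word fixed by the rotation is constant -/
theorem const_of_fix {u : Γ} {P : ℕ} (hP : 0 < P) {s : Fin P → Γ} (h : sh u hP 1 s = s)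
    (i : Fin P) : s i = s ⟨0, hP⟩ := by
  have h1 : ∀ m, ext u hP s (m + 1) = ext u hP s m := by
    intro m
    have := ext_sh u hP 1 s m
    rw [h] at this
    exact this.symm
  have h2 : ∀ m, ext u hP s m = ext u hP s 0 := by
    intro m
    induction m with
    | zero => rfl
    | succ m ih => rw [h1, ih]
  have h3 := h2 i
  rw [ext_lt] at h3
  rw [h3]
  exact ext_lt u hP s ⟨0, hP⟩

end weight

/-- the coefficient at an `ℓ`-element `u ≠ 1` -/
theorem coeff_zero (hC1 : T_C1) {F : Type} [Field F] (ℓ : ℕ) [hℓ : Fact ℓ.Prime] [CharP F ℓ]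
    {Γ : Type} [Group Γ] [Fintype Γ] (x : MonoidAlgebra F Γ) {u : Γ}
    (hx : ∀ g, x.coeff (u⁻¹ * g * u) = x.coeff g) {k : ℕ} (hk : 0 < k) (hu : u ^ (ℓ ^ k) = 1)
    (hno : ∀ g : Γ, g ^ (ℓ ^ k) ≠ u) : (x ^ (ℓ ^ k)).coeff u = 0 := by
  have hl1 : 1 < ℓ := hℓ.out.one_lt
  have hP : 0 < ℓ ^ k := by positivity
  set P := ℓ ^ k with hPdef
  have hP1 : 1 < P := Nat.one_lt_pow hk.ne' hl1
  have hPP : 1 < P * P := by nlinarith
  have : NeZero (P * P) := ⟨by omega⟩
  have : Fact (1 < P * P) := ⟨hPP⟩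
  rw [coeff_pow]
  let act : MulAction (Multiplicative (ZMod (P * P))) (Fin P → Γ) :=
    { smul := fun t s => sh u hP (Multiplicative.toAdd t).val s
      one_smul := by
        intro s
        show sh u hP (0 : ZMod (P * P)).val s = s
        rw [ZMod.val_zero, sh_zero]
      mul_smul := by
        intro t t' s
        show sh u hP (Multiplicative.toAdd t + Multiplicative.toAdd t').val s =
          sh u hP (Multiplicative.toAdd t).val (sh u hP (Multiplicative.toAdd t').val s)
        rw [sh_sh, ZMod.val_add, sh_mod u hP hu] }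
  have hT : IsPGroup ℓ (Multiplicative (ZMod (P * P))) := by
    refine IsPGroup.of_card (n := k + k) ?_
    rw [Nat.card_eq_fintype_card, Fintype.card_multiplicative, ZMod.card, hPdef, pow_add]
  have hsum := hC1 F ℓ (Multiplicative (ZMod (P * P))) (Fin P → Γ) hT
    (wt (fun g => x.coeff g) u) (fun t s => wt_sh (fun g => x.coeff g) hx hP _ s)
  rw [hsum]
  refine Finset.sum_eq_zero fun s _ => ?_
  by_cases hfix : ∀ t : Multiplicative (ZMod (P * P)), t • s = s
  · rw [if_pos hfix]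
    have h1 : sh u hP 1 s = s := by
      have := hfix (Multiplicative.ofAdd 1)
      have h2 : Multiplicative.ofAdd (1 : ZMod (P * P)) • s = sh u hP (1 : ZMod (P * P)).val s := rfl
      rw [h2, ZMod.val_one] at this
      exact this
    unfold wt
    rw [if_neg]
    intro h3
    have h4 : s = fun _ => s ⟨0, hP⟩ := funext fun i => const_of_fix hP h1 i
    rw [h4, List.ofFn_const, List.prod_replicate] at h3
    exact hno _ h3
  · rw [if_neg hfix]

theorem pow_eq_one {Γ : Type} [Group Γ] [Fintype Γ] {ℓ : ℕ} (hℓ : ℓ.Prime) {g : Γ} {j : ℕ}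
    (h : g ^ (ℓ ^ j) = 1) : g ^ (ℓ ^ (Fintype.card Γ)) = 1 := by
  obtain ⟨i, hi, hi'⟩ := (Nat.dvd_prime_pow hℓ).1 (orderOf_dvd_of_pow_eq_one h)
  have h1 : ℓ ^ i ≤ Fintype.card Γ := by
    rw [← hi']; exact orderOf_le_card_univ
  have h2 : i < Fintype.card Γ := lt_of_lt_of_le (Nat.lt_pow_self hℓ.one_lt) h1
  rw [← orderOf_dvd_iff_pow_eq_one, hi']
  exact pow_dvd_pow _ h2.le

/-- **RS** -/
theorem rs_ (hC1 : T_C1) : AMe.T_RS := by
  intro F _ ℓ hℓ _ Γ _ _ N z hz
  have hlp : ℓ.Prime := hℓ.out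
  set k := Fintype.card Γ with hk
  have hk0 : 0 < k := Fintype.card_pos
  refine ⟨k, fun y hy hly => hy ?_⟩
  set P := ℓ ^ k with hP
  have hlP : ℓ ∣ P := dvd_pow_self _ hk0.ne'
  -- `y` lies in `N`
  have hzP : z ^ P ∈ ZA F N N := (ZA F N N).pow_mem hz P
  have hyN : y ∈ N := by
    by_contra h
    exact hy (hzP.1 y h)
  -- decomposition of the order
  have hm0 : orderOf y ≠ 0 := (orderOf_pos y).ne'
  obtain ⟨a, m', hlm', hm⟩ := Nat.exists_eq_pow_mul_and_not_dvd hm0 ℓ hlp.ne_one
  have ha : a ≠ 0 := by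
    rintro rfl
    rw [pow_zero, one_mul] at hm
    exact hlm' (hm ▸ hly)
  have hcop : IsCoprime (P : ℤ) (m' : ℤ) := by
    rw [Nat.isCoprime_iff_coprime, hP]
    exact Nat.Coprime.pow_left _ ((Nat.Prime.coprime_iff_not_dvd hlp).2 hlm')
  obtain ⟨c, w, hcw⟩ := hcop
  -- `c * P + w * m' = 1`
  set v' : Γ := y ^ (-c) with hv'
  set u : Γ := y ^ (w * m') with hu
  have huv : u = y * v' ^ P := by
    rw [hu, hv', ← zpow_natCast, ← zpow_mul]
    have h1 : w * m' = 1 + (-c) * (P : ℤ) := by linarith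
    rw [h1, zpow_add, zpow_one]
  have huN : u ∈ N := N.zpow_mem hyN _
  have hvN : v' ∈ N := N.zpow_mem hyN _
  have huv' : Commute u v' := by
    rw [hu, hv']
    exact (Commute.refl y).zpow_zpow _ _
  have hul : u ^ (ℓ ^ a) = 1 := by
    rw [hu, ← zpow_natCast, ← zpow_mul]
    have h1 : w * (m' : ℤ) * ((ℓ ^ a : ℕ) : ℤ) = (orderOf y : ℤ) * w := by
      rw [hm]
      push_cast
      ring
    rw [h1, zpow_mul, zpow_natCast, pow_orderOf_eq_one, one_zpow]
  have hu1 : u ≠ 1 := by
    intro h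
    rw [hu] at h
    have h1 : (orderOf y : ℤ) ∣ w * m' := orderOf_dvd_iff_zpow_eq_one.2 h
    have h2 : (ℓ : ℤ) ∣ w * m' := (Int.natCast_dvd_natCast.2 hly).trans h1
    have h3 : (ℓ : ℤ) ∣ c * P := (Int.natCast_dvd_natCast.2 hlP).mul_left c
    have h4 : (ℓ : ℤ) ∣ 1 := by rw [← hcw]; exact dvd_add h3 h2
    have h5 := Int.natCast_dvd_natCast.1 (by exact_mod_cast h4 : (ℓ : ℤ) ∣ ((1 : ℕ) : ℤ))
    exact hlp.one_lt.ne' (Nat.dvd_one.1 h5)
  have huP : u ^ P = 1 := pow_eq_one hlp hul
  have hno : ∀ g : Γ, g ^ P ≠ u := by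
    intro g hg
    have h1 : g ^ (ℓ ^ (k + a)) = 1 := by rw [pow_add, pow_mul, ← hP, hg, hul]
    have h2 : g ^ P = 1 := pow_eq_one hlp h1
    exact hu1 (by rw [← hg, h2])
  -- the twisted element
  set sv : MonoidAlgebra F Γ := MonoidAlgebra.single v' 1 with hsv
  have hcomm : sv * z = z * sv := by
    refine ZA_comm (N := N) (fun g hg => ?_) hz le_rfl
    rw [hsv, MonoidAlgebra.coeff_single, Finsupp.single_apply, if_neg]
    rintro rfl
    exact hg hvN
  have hcoef : ∀ (t : MonoidAlgebra F Γ) (n : ℕ) (g : Γ), (t * sv ^ n).coeff g =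
      t.coeff (g * (v' ^ n)⁻¹) := by
    intro t n g
    rw [hsv, MonoidAlgebra.single_pow, one_pow, MonoidAlgebra.coeff_mul_single_apply, mul_one]
  have hx : ∀ g, (z * sv).coeff (u⁻¹ * g * u) = (z * sv).coeff g := by
    intro g
    have h1 := hcoef z 1 (u⁻¹ * g * u)
    have h2 := hcoef z 1 g
    rw [pow_one, pow_one] at h1 h2
    rw [h1, h2]
    have h3 : u⁻¹ * g * u * v'⁻¹ = u⁻¹ * (g * v'⁻¹) * (u⁻¹)⁻¹ := by
      have h4 : u * v'⁻¹ = v'⁻¹ * u := (huv'.inv_right).eq
      rw [inv_inv, mul_assoc _ u v'⁻¹, h4]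
      group
    rw [h3]
    exact hz.2 u⁻¹ (N.inv_mem huN) _
  have h0 := coeff_zero hC1 ℓ (z * sv) hx hk0 huP hno
  have hmul : (z * sv) ^ P = z ^ P * sv ^ P := (show Commute z sv from hcomm.symm).mul_pow P
  rw [← hP, hmul, hcoef, huv, mul_inv_cancel_right] at h0
  exact h0

end Pool.Agent.H33.EA.RS
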